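import Pool.Agent.helper92.FV.Defs2

/-!
# MP_51fbee_al : fv:LK1

`G ⊗ N` for graded modules `N` in homological degree `0`: boundaries in degree `0`, free modules.
-/

namespace FV

universe u

variable {k : Type u} [Field k]

section Ring

variable {R : Type u} [CommRing R] [Algebra k R] {𝒜 : ℕ → Submodule k R} [GradedAlgebra 𝒜]

variable (𝒜) in
/-- `(𝔪 N)_m` -/
def mN {N : Type u} [AddCommGroup N] [Module R N] (ℳ : ℤ → AddSubgroup N) (m : ℤ) :
    AddSubgroup N :=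
  AddSubgroup.closure {z | ∃ i : ℕ, 1 ≤ i ∧ ∃ a ∈ 𝒜 i, ∃ y ∈ ℳ (m - i), z = a • y}

/-- homogeneous vectors of bidegree `(n, m)` of `G ⊗ N`, `N` in homological degree `0` -/
def LK_grM {M : DGA k} (G : Twist M) {N : Type u} [AddCommGroup N] (ℳ : ℤ → AddSubgroup N)
    (n m : ℤ) (x : G.I → N) : Prop :=
  ∀ α, (G.n α = n → x α ∈ ℳ (m - G.j α)) ∧ (G.n α ≠ n → x α = 0)

/-- the differential of `G ⊗ N`, `N` in homological degree `0` -/
def LK_DM {M : DGA k} (π : DGA.Hom M (ofRing 𝒜)) (G : Twist M)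
    {N : Type u} [AddCommGroup N] [Module R N] (x : G.I → N) : G.I → N :=
  fun β => ∑ α, π.toR (G.c β α) • x α

lemma LK_D {M : DGA k} (π : DGA.Hom M (ofRing 𝒜)) (G : Twist M)
    (N : Type u) [AddCommGroup N] [Module R N] (ℳ : ℤ → AddSubgroup N)
    (hℳ : ∀ (i : ℕ) (j : ℤ) (a : R) (x : N), a ∈ 𝒜 i → x ∈ ℳ j → a • x ∈ ℳ (j + i))
    (x : G.I → N) :
    (G.tens (DGMod.res π (DGMod.ofMod N ℳ hℳ))).D x = LK_DM π G x := by
  funext β
  show sg (G.n β) • (0 : N) + ∑ α, π.toR (G.c β α) • x α = ∑ α, π.toR (G.c β α) • x α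
  rw [smul_zero, zero_add]

lemma LK_gr {M : DGA k} (π : DGA.Hom M (ofRing 𝒜)) (G : Twist M)
    (N : Type u) [AddCommGroup N] [Module R N] (ℳ : ℤ → AddSubgroup N)
    (hℳ : ∀ (i : ℕ) (j : ℤ) (a : R) (x : N), a ∈ 𝒜 i → x ∈ ℳ j → a • x ∈ ℳ (j + i))
    (n m : ℤ) (x : (G.tens (DGMod.res π (DGMod.ofMod N ℳ hℳ))).X) :
    x ∈ (G.tens (DGMod.res π (DGMod.ofMod N ℳ hℳ))).gr n m ↔ LK_grM G ℳ n m x := by
  show (∀ α, (show G.I → N from x) α ∈
    (if n - G.n α = 0 then ℳ (m - G.j α) else ⊥ : AddSubgroup N)) ↔ _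
  refine forall_congr' fun α => ?_
  by_cases h : G.n α = n
  · rw [if_pos (by omega)]
    exact ⟨fun hx => ⟨fun _ => hx, fun h' => absurd h h'⟩, fun hx => hx.1 h⟩
  · rw [if_neg (by omega)]
    exact ⟨fun hx => ⟨fun h' => absurd h' h, fun _ => hx⟩, fun hx => hx.2 h⟩

lemma LK_van {M : DGA k} (π : DGA.Hom M (ofRing 𝒜)) (G : Twist M)
    (N : Type u) [AddCommGroup N] [Module R N] (ℳ : ℤ → AddSubgroup N)
    (hℳ : ∀ (i : ℕ) (j : ℤ) (a : R) (x : N), a ∈ 𝒜 i → x ∈ ℳ j → a • x ∈ ℳ (j + i))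
    (n m : ℤ) :
    (G.tens (DGMod.res π (DGMod.ofMod N ℳ hℳ))).Van n m ↔
      ∀ x : G.I → N, LK_grM G ℳ n m x → LK_DM π G x = 0 →
        ∃ y : G.I → N, LK_grM G ℳ (n + 1) m y ∧ LK_DM π G y = x := by
  constructor
  · intro h x hx hD
    obtain ⟨y, hy, hDy⟩ := h x ((LK_gr π G N ℳ hℳ n m x).mpr hx)
      ((LK_D π G N ℳ hℳ x).trans hD)
    exact ⟨y, (LK_gr π G N ℳ hℳ (n + 1) m y).mp hy, (LK_D π G N ℳ hℳ y).symm.trans hDy⟩
  · intro h x hx hD
    obtain ⟨y, hy, hDy⟩ := h x ((LK_gr π G N ℳ hℳ n m x).mp hx)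
      ((LK_D π G N ℳ hℳ x).symm.trans hD)
    exact ⟨y, (LK_gr π G N ℳ hℳ (n + 1) m y).mpr hy, (LK_D π G N ℳ hℳ y).trans hDy⟩

lemma LK_grM_zero {M : DGA k} (G : Twist M) {N : Type u} [AddCommGroup N]
    (ℳ : ℤ → AddSubgroup N) (n m : ℤ) : LK_grM G ℳ n m (0 : G.I → N) :=
  fun _ => ⟨fun _ => AddSubgroup.zero_mem _, fun _ => rfl⟩

lemma LK_grM_add {M : DGA k} (G : Twist M) {N : Type u} [AddCommGroup N]
    (ℳ : ℤ → AddSubgroup N) (n m : ℤ) {x y : G.I → N} (hx : LK_grM G ℳ n m x)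
    (hy : LK_grM G ℳ n m y) : LK_grM G ℳ n m (x + y) :=
  fun α => ⟨fun h => AddSubgroup.add_mem _ ((hx α).1 h) ((hy α).1 h), fun h => by
    rw [Pi.add_apply, (hx α).2 h, (hy α).2 h, add_zero]⟩

lemma LK_grM_neg {M : DGA k} (G : Twist M) {N : Type u} [AddCommGroup N]
    (ℳ : ℤ → AddSubgroup N) (n m : ℤ) {x : G.I → N} (hx : LK_grM G ℳ n m x) :
    LK_grM G ℳ n m (-x) :=
  fun α => ⟨fun h => AddSubgroup.neg_mem _ ((hx α).1 h), fun h => by
    rw [Pi.neg_apply, (hx α).2 h, neg_zero]⟩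

lemma LK_grM_sub {M : DGA k} (G : Twist M) {N : Type u} [AddCommGroup N]
    (ℳ : ℤ → AddSubgroup N) (n m : ℤ) {x y : G.I → N} (hx : LK_grM G ℳ n m x)
    (hy : LK_grM G ℳ n m y) : LK_grM G ℳ n m (x - y) := by
  rw [sub_eq_add_neg]
  exact LK_grM_add G ℳ n m hx (LK_grM_neg G ℳ n m hy)

lemma LK_DM_zero {M : DGA k} (π : DGA.Hom M (ofRing 𝒜)) (G : Twist M)
    {N : Type u} [AddCommGroup N] [Module R N] : LK_DM π G (0 : G.I → N) = 0 := by
  funext β
  simp [LK_DM]

lemma LK_DM_add {M : DGA k} (π : DGA.Hom M (ofRing 𝒜)) (G : Twist M)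
    {N : Type u} [AddCommGroup N] [Module R N] (x y : G.I → N) :
    LK_DM π G (x + y) = LK_DM π G x + LK_DM π G y := by
  funext β
  simp [LK_DM, Finset.sum_add_distrib]

lemma LK_DM_neg {M : DGA k} (π : DGA.Hom M (ofRing 𝒜)) (G : Twist M)
    {N : Type u} [AddCommGroup N] [Module R N] (x : G.I → N) :
    LK_DM π G (-x) = - LK_DM π G x := by
  funext β
  simp [LK_DM, Finset.sum_neg_distrib]

lemma LK_DM_sub {M : DGA k} (π : DGA.Hom M (ofRing 𝒜)) (G : Twist M)
    {N : Type u} [AddCommGroup N] [Module R N] (x y : G.I → N) :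
    LK_DM π G (x - y) = LK_DM π G x - LK_DM π G y := by
  rw [sub_eq_add_neg, LK_DM_add, LK_DM_neg, sub_eq_add_neg]

/-- functoriality of the differential -/
lemma LK_DM_map {M : DGA k} (π : DGA.Hom M (ofRing 𝒜)) (G : Twist M)
    {N N' : Type u} [AddCommGroup N] [Module R N] [AddCommGroup N'] [Module R N']
    (φ : N →ₗ[R] N') (x : G.I → N) :
    LK_DM π G (fun α => φ (x α)) = fun β => φ (LK_DM π G x β) := by
  funext β
  simp [LK_DM, map_sum]

/-- the square of the differential -/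
lemma LK_DM_DM {M : DGA k} (π : DGA.Hom M (ofRing 𝒜)) (G : Twist M)
    {N : Type u} [AddCommGroup N] [Module R N] (x : G.I → N) :
    LK_DM π G (LK_DM π G x) = 0 := by
  funext γ
  show ∑ β, π.toR (G.c γ β) • ∑ α, π.toR (G.c β α) • x α = 0
  simp only [Finset.smul_sum, smul_smul]
  rw [Finset.sum_comm]
  refine Finset.sum_eq_zero fun α _ => ?_
  rw [← Finset.sum_smul]
  have h := congrArg π.toR (G.mc γ α)
  rw [map_add, map_zsmul, π.toR_d, smul_zero, add_zero, map_sum, map_zero] at h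
  simp only [map_mul] at h
  rw [h, zero_smul]

lemma LK_toR_zero {M : DGA k} (π : DGA.Hom M (ofRing 𝒜)) {i j : ℤ} {m : M.A}
    (hm : m ∈ M.gr i j) (hi : i ≠ 0) : π.toR m = 0 := by
  have h := π.toR_mem hm
  rw [if_neg (by omega)] at h
  exact (Submodule.mem_bot k).mp h

lemma LK_toR_neg {M : DGA k} (π : DGA.Hom M (ofRing 𝒜)) {i j : ℤ} {m : M.A}
    (hm : m ∈ M.gr i j) (hj : j < 0) : π.toR m = 0 := by
  have h := π.toR_mem hm
  rw [if_neg (by omega)] at h
  exact (Submodule.mem_bot k).mp h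

lemma LK_toR_mem {M : DGA k} (π : DGA.Hom M (ofRing 𝒜)) {j : ℤ} {m : M.A}
    (hm : m ∈ M.gr 0 j) (hj : 0 ≤ j) : π.toR m ∈ 𝒜 j.toNat := by
  have h := π.toR_mem hm
  rwa [if_pos ⟨rfl, hj⟩] at h

/-- the origin of a resolution -/
lemma LK_orig {M : DGA k} (G : Twist M) (J : ℤ) (hG : G.IsRes J) (o : G.I) (ho1 : G.n o = 0) :
    ∀ α, α ≠ o → 1 ≤ G.n α ∧ G.n α ≤ G.j α := by
  obtain ⟨o', -, -, h3⟩ := hG.orig
  have : o = o' := by
    by_contra hne
    have := (h3 o hne).1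
    omega
  rw [this]; exact h3

/-- the vector `x e_o` -/
noncomputable def LK_s {M : DGA k} (G : Twist M) {N : Type u} [AddCommGroup N] (o : G.I) (x : N) : G.I → N :=
  fun α => by classical exact if α = o then x else 0

lemma LK_s_self {M : DGA k} (G : Twist M) {N : Type u} [AddCommGroup N] (o : G.I) (x : N) :
    LK_s G o x o = x := by
  simp [LK_s]

lemma LK_s_ne {M : DGA k} (G : Twist M) {N : Type u} [AddCommGroup N] (o : G.I) (x : N)
    (α : G.I) (h : α ≠ o) : LK_s G o x α = 0 := by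
  simp [LK_s, h]

lemma LK_s_zero {M : DGA k} (G : Twist M) {N : Type u} [AddCommGroup N] (o : G.I) :
    LK_s G o (0 : N) = 0 := by
  funext α
  simp [LK_s]

lemma LK_s_add {M : DGA k} (G : Twist M) {N : Type u} [AddCommGroup N] (o : G.I) (x y : N) :
    LK_s G o (x + y) = LK_s G o x + LK_s G o y := by
  funext α
  by_cases h : α = o
  · subst h
    simp [LK_s]
  · simp [LK_s, h]

lemma LK_s_neg {M : DGA k} (G : Twist M) {N : Type u} [AddCommGroup N] (o : G.I) (x : N) :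
    LK_s G o (-x) = - LK_s G o x := by
  funext α
  by_cases h : α = o
  · subst h
    simp [LK_s]
  · simp [LK_s, h]

/-- `G ⊗ M` in homological degree one: lifting of scalars -/
lemma LK_lift {M : DGA k} (π : DGA.Hom M (ofRing 𝒜)) (J : ℤ)
    (hQ : ∀ m, m ≤ J → QuasiAt π m) (G : Twist M) (hG : G.IsRes J)
    (o : G.I) (ho1 : G.n o = 0) (ho2 : G.j o = 0) (i : ℕ) (hi : 1 ≤ i) (hiJ : (i : ℤ) ≤ J)
    (a : R) (ha : a ∈ 𝒜 i) :
    ∃ w : G.I → R, (∀ α, (G.n α = 1 → w α ∈ grZ 𝒜 (i - G.j α)) ∧ (G.n α ≠ 1 → w α = 0)) ∧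
      LK_DM π G w = LK_s G o a := by
  classical
  have hmem := mem_ofRing ha
  obtain ⟨a', ha', hπ⟩ := (hQ i hiJ).surj _ hmem
  have hπ' : π.toR a' = a := hπ
  have hcyc : ∀ β, M.d (if β = o then a' else 0) = 0 := by
    intro β
    split_ifs
    · exact M.neg_left (by norm_num) (M.d_mem ha')
    · exact map_zero _
  have hex : ∃ W : G.I → M.A, (∀ α, W α ∈ M.gr (0 + 1 - G.n α) (i - G.j α)) ∧
      ∀ β, sg (G.n β) • M.d (W β) + ∑ α, G.c β α * W α = if β = o then a' else 0 := by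
    obtain ⟨W, hW, hDW⟩ := hG.van 0 i (by omega) (by
      intro h
      have := congrArg Prod.snd h
      simp only at this
      omega) (show G.I → M.A from fun β => if β = o then a' else 0)
      (by
        intro α
        show (if α = o then a' else 0) ∈ M.gr (0 - G.n α) (i - G.j α)
        split_ifs with h
        · rw [h, ho1, ho2]; simpa using ha'
        · exact Submodule.zero_mem _)
      (by
        funext β
        show sg (G.n β) • M.d (if β = o then a' else 0)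
          + ∑ α, G.c β α * (if α = o then a' else 0) = 0
        rw [hcyc, smul_zero, zero_add]
        refine Finset.sum_eq_zero fun α _ => ?_
        split_ifs with h
        · have h1 := G.c_mem β α
          have h2 := G.n_nonneg β
          rw [h, ho1] at h1
          rw [h, M.neg_left (by omega) h1, zero_mul]
        · exact mul_zero _)
    exact ⟨W, hW, fun β => congrFun hDW β⟩
  obtain ⟨W, hW, hDW⟩ := hex
  refine ⟨fun α => π.toR (W α), fun α => ⟨fun hα => ?_, fun hα => ?_⟩, ?_⟩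
  · have hWα := hW α
    rw [hα, show (0 + 1 - 1 : ℤ) = 0 by norm_num] at hWα
    show π.toR (W α) ∈ grZ 𝒜 (i - G.j α)
    unfold grZ
    by_cases hneg' : (i : ℤ) - G.j α < 0
    · rw [LK_toR_neg π hWα hneg']
      exact Submodule.zero_mem _
    · rw [if_pos (by omega)]
      exact LK_toR_mem π hWα (by omega)
  · exact LK_toR_zero π (hW α) (by omega)
  · funext β
    have h1 := congrArg π.toR (hDW β)
    rw [map_add, map_zsmul, π.toR_d, smul_zero, zero_add, map_sum] at h1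
    simp only [map_mul] at h1
    show ∑ α, π.toR (G.c β α) • π.toR (W α) = LK_s G o a β
    simp only [smul_eq_mul]
    rw [h1]
    unfold LK_s
    split_ifs
    · exact hπ'
    · exact map_zero _

lemma LK_zero_iff {M : DGA k} (π : DGA.Hom M (ofRing 𝒜)) (J : ℤ)
    (hQ : ∀ m, m ≤ J → QuasiAt π m)
    (G : Twist M) (hG : G.IsRes J) (N : Type u) [AddCommGroup N] [Module R N]
    (ℳ : ℤ → AddSubgroup N)
    (hℳ : ∀ (i : ℕ) (j : ℤ) (a : R) (x : N), a ∈ 𝒜 i → x ∈ ℳ j → a • x ∈ ℳ (j + i))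
    (hneg : ∀ j, j < 0 → ℳ j = ⊥) (m : ℤ) (hm : m ≤ J) (x : N)
    (o : G.I) (ho1 : G.n o = 0) (ho2 : G.j o = 0) :
    x ∈ mN 𝒜 ℳ m ↔ ∃ Y : G.I → N, LK_grM G ℳ 1 m Y ∧ LK_DM π G Y = LK_s G o x := by
  have horig := LK_orig G J hG o ho1
  constructor
  · intro hxm
    refine AddSubgroup.closure_induction (p := fun z _ =>
      ∃ Y : G.I → N, LK_grM G ℳ 1 m Y ∧ LK_DM π G Y = LK_s G o z) ?_ ?_ ?_ ?_ hxm
    · rintro z ⟨i, hi, a, ha, y, hy, rfl⟩
      by_cases hlt : m - i < 0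
      · have hy0 : y = 0 := by
          rw [hneg _ hlt] at hy
          exact hy
        refine ⟨0, LK_grM_zero G ℳ 1 m, ?_⟩
        rw [hy0, smul_zero, LK_s_zero, LK_DM_zero]
      · obtain ⟨w, hw, hDw⟩ := LK_lift π J hQ G hG o ho1 ho2 i hi (by omega) a ha
        refine ⟨fun α => w α • y, fun α => ⟨fun hα => ?_, fun hα => ?_⟩, ?_⟩
        · have h1 := (hw α).1 hα
          unfold grZ at h1
          by_cases h2 : 0 ≤ (i : ℤ) - G.j α
          · rw [if_pos h2] at h1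
            have h3 := hℳ _ _ _ _ h1 hy
            have e : m - i + (((i : ℤ) - G.j α).toNat : ℤ) = m - G.j α := by
              rw [Int.toNat_of_nonneg h2]; ring
            rwa [e] at h3
          · rw [if_neg h2] at h1
            have h3 : w α = 0 := (Submodule.mem_bot k).mp h1
            show w α • y ∈ _
            rw [h3, zero_smul]
            exact AddSubgroup.zero_mem _
        · show w α • y = 0
          rw [(hw α).2 hα, zero_smul]
        · have h1 := LK_DM_map π G (LinearMap.toSpanSingleton R N y) w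
          rw [hDw] at h1
          simp only [LinearMap.toSpanSingleton_apply] at h1
          rw [h1]
          funext β
          by_cases hβ : β = o
          · rw [hβ, LK_s_self, LK_s_self]
          · rw [LK_s_ne _ _ _ _ hβ, LK_s_ne _ _ _ _ hβ, zero_smul]
    · exact ⟨0, LK_grM_zero G ℳ 1 m, by rw [LK_s_zero, LK_DM_zero]⟩
    · rintro z z' - - ⟨Y, hY, hD⟩ ⟨Y', hY', hD'⟩
      exact ⟨Y + Y', LK_grM_add G ℳ 1 m hY hY', by rw [LK_DM_add, hD, hD', LK_s_add]⟩
    · rintro z - ⟨Y, hY, hD⟩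
      exact ⟨-Y, LK_grM_neg G ℳ 1 m hY, by rw [LK_DM_neg, hD, LK_s_neg]⟩
  · rintro ⟨Y, hY, hD⟩
    have h2 : ∑ α, π.toR (G.c o α) • Y α = x := by
      have h3 := congrFun hD o
      rw [LK_s_self] at h3
      exact h3
    rw [← h2]
    refine AddSubgroup.sum_mem _ fun α _ => ?_
    by_cases hα : G.n α = 1
    · have hne : α ≠ o := by
        rintro rfl
        omega
      have h4 := (horig α hne).2
      have h5 := G.c_mem o α
      rw [hα, ho1, ho2] at h5
      have h6 : π.toR (G.c o α) ∈ 𝒜 (G.j α).toNat :=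
        LK_toR_mem π (m := G.c o α) (j := G.j α) (by simpa using h5) (by omega)
      refine AddSubgroup.subset_closure ⟨(G.j α).toNat, by omega, _, h6, _, ?_, rfl⟩
      rw [Int.toNat_of_nonneg (by omega)]
      exact (hY α).1 hα
    · rw [(hY α).2 hα, smul_zero]
      exact AddSubgroup.zero_mem _

set_option linter.unusedVariables false in
theorem tens_zero_iff {M : DGA k} (π : DGA.Hom M (ofRing 𝒜)) (J : ℤ)
    (hQ : ∀ m, m ≤ J → QuasiAt π m)
    (G : Twist M) (hG : G.IsRes J) (N : Type u) [AddCommGroup N] [Module R N]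
    (ℳ : ℤ → AddSubgroup N)
    (hℳ : ∀ (i : ℕ) (j : ℤ) (a : R) (x : N), a ∈ 𝒜 i → x ∈ ℳ j → a • x ∈ ℳ (j + i))
    (hneg : ∀ j, j < 0 → ℳ j = ⊥) (m : ℤ) (hm : m ≤ J) (x : N) (hx : x ∈ ℳ m)
    (o : G.I) (ho1 : G.n o = 0) (ho2 : G.j o = 0) :
    x ∈ mN 𝒜 ℳ m ↔
      ∃ Y ∈ (G.tens (DGMod.res π (DGMod.ofMod N ℳ hℳ))).gr 1 m,
        (G.tens (DGMod.res π (DGMod.ofMod N ℳ hℳ))).D Y =
          (show G.I → N from fun α => by classical exact if α = o then x else 0) := by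
  rw [LK_zero_iff π J hQ G hG N ℳ hℳ hneg m hm x o ho1 ho2]
  constructor
  · rintro ⟨Y, hY, hD⟩
    exact ⟨Y, (LK_gr π G N ℳ hℳ 1 m Y).mpr hY, (LK_D π G N ℳ hℳ Y).trans hD⟩
  · rintro ⟨Y, hY, hD⟩
    exact ⟨Y, (LK_gr π G N ℳ hℳ 1 m Y).mp hY, (LK_D π G N ℳ hℳ Y).symm.trans hD⟩

theorem FreeGr_smul {ι : Type u} (deg : ι → ℤ) (i : ℕ) (j : ℤ) (a : R) (x : ι →₀ R)
    (ha : a ∈ 𝒜 i) (hx : x ∈ FreeGr 𝒜 deg j) : a • x ∈ FreeGr 𝒜 deg (j + i) := by
  intro b
  have h := hx b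
  rw [Finsupp.smul_apply, smul_eq_mul]
  unfold grZ at h ⊢
  by_cases h1 : 0 ≤ j - deg b
  · rw [if_pos h1] at h
    rw [if_pos (by omega)]
    have h2 := SetLike.GradedMul.mul_mem ha h
    have e : (j + i - deg b).toNat = i + (j - deg b).toNat := by omega
    rw [e]
    exact h2
  · rw [if_neg h1] at h
    rw [(Submodule.mem_bot k).mp h, mul_zero]
    exact Submodule.zero_mem _

lemma LK_irr {i : ℕ} (hi : 1 ≤ i) {a : R} (ha : a ∈ 𝒜 i) : a ∈ irr 𝒜 := by
  unfold irr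
  show a ∈ HomogeneousIdeal.irrelevant 𝒜
  rw [HomogeneousIdeal.mem_irrelevant_iff, GradedRing.proj_apply]
  exact DirectSum.decompose_of_mem_ne 𝒜 ha (by omega)

lemma LK_irr_zero {a : R} (ha : a ∈ 𝒜 0) (h : a ∈ irr 𝒜) : a = 0 := by
  unfold irr at h
  have h' : a ∈ HomogeneousIdeal.irrelevant 𝒜 := h
  rw [HomogeneousIdeal.mem_irrelevant_iff, GradedRing.proj_apply,
    DirectSum.decompose_of_mem_same 𝒜 ha] at h'
  exact h'

theorem mN_free {ι : Type u} (deg : ι → ℤ) (m : ℤ) (x : ι →₀ R) (hx : x ∈ FreeGr 𝒜 deg m) :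
    x ∈ mN 𝒜 (FreeGr 𝒜 deg) m ↔ ∀ b, x b ∈ irr 𝒜 := by
  classical
  constructor
  · intro h
    refine AddSubgroup.closure_induction (p := fun z _ => ∀ b, z b ∈ irr 𝒜) ?_ ?_ ?_ ?_ h
    · rintro z ⟨i, hi, a, ha, y, hy, rfl⟩ b
      rw [Finsupp.smul_apply, smul_eq_mul]
      exact Ideal.mul_mem_right _ _ (LK_irr hi ha)
    · intro b
      exact Submodule.zero_mem _
    · intro z z' _ _ h1 h2 b
      rw [Finsupp.add_apply]
      exact Submodule.add_mem _ (h1 b) (h2 b)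
    · intro z _ h1 b
      rw [Finsupp.neg_apply]
      exact Submodule.neg_mem _ (h1 b)
  · intro h
    rw [← Finsupp.sum_single x]
    refine AddSubgroup.sum_mem _ fun b _ => ?_
    have h1 := hx b
    unfold grZ at h1
    by_cases h2 : 0 ≤ m - deg b
    · rw [if_pos h2] at h1
      by_cases h3 : m - deg b = 0
      · rw [h3] at h1
        rw [LK_irr_zero h1 (h b), Finsupp.single_zero]
        exact AddSubgroup.zero_mem _
      · refine AddSubgroup.subset_closure ⟨(m - deg b).toNat, by omega, x b, h1,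
          Finsupp.single b 1, ?_, ?_⟩
        · intro b'
          unfold grZ
          by_cases hb : b = b'
          · subst hb
            rw [Finsupp.single_eq_same, if_pos (by omega),
              show (m - ((m - deg b).toNat : ℤ) - deg b).toNat = 0 by omega]
            exact SetLike.GradedOne.one_mem
          · rw [Finsupp.single_eq_of_ne (Ne.symm hb)]
            exact Submodule.zero_mem _
        · rw [Finsupp.smul_single, smul_eq_mul, mul_one]
    · rw [if_neg h2] at h1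
      rw [(Submodule.mem_bot k).mp h1, Finsupp.single_zero]
      exact AddSubgroup.zero_mem _

end Ring

end FV
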