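import Pool.Agent.helper85.FV.LK1
import Pool.Agent.helper92.FV.SQ2

/-!
# MP_51fbee_al : fv:LK1, second part

`G ⊗ F` is acyclic in nonzero homological degrees for graded free modules `F`.
-/

namespace FV

universe u

variable {k : Type u} [Field k]

section Ring

variable {R : Type u} [CommRing R] [Algebra k R] {𝒜 : ℕ → Submodule k R} [GradedAlgebra 𝒜]

/-- homogeneous vectors of `G ⊗ R` -/
lemma LK_R_gr {M : DGA k} (π : DGA.Hom M (ofRing 𝒜)) (G : Twist M) (n b : ℤ)
    (x : (G.tens (DGMod.res π (DGMod.self (ofRing 𝒜)))).X) :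
    x ∈ (G.tens (DGMod.res π (DGMod.self (ofRing 𝒜)))).gr n b ↔
      LK_grM G (fun j => (grZ 𝒜 j).toAddSubgroup) n b (show G.I → R from x) := by
  show (∀ α, (show G.I → R from x) α ∈
    (if n - G.n α = 0 ∧ 0 ≤ b - G.j α then 𝒜 (b - G.j α).toNat else ⊥ : Submodule k R)) ↔ _
  refine forall_congr' fun α => ?_
  by_cases h : G.n α = n
  · have h0 : n - G.n α = 0 := by omega
    simp only [h0, true_and]
    exact ⟨fun hx => ⟨fun _ => hx, fun h' => absurd h h'⟩, fun hx => hx.1 h⟩
  · rw [if_neg (by omega)]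
    exact ⟨fun hx => ⟨fun h' => absurd h' h, fun _ => hx⟩, fun hx => hx.2 h⟩

lemma LK_R_D {M : DGA k} (π : DGA.Hom M (ofRing 𝒜)) (G : Twist M) (x : G.I → R) :
    (G.tens (DGMod.res π (DGMod.self (ofRing 𝒜)))).D x = LK_DM π G x := by
  funext β
  show sg (G.n β) • (0 : R) + ∑ α, π.toR (G.c β α) * x α = ∑ α, π.toR (G.c β α) • x α
  rw [smul_zero, zero_add]
  rfl

lemma LK_R_van {M : DGA k} (π : DGA.Hom M (ofRing 𝒜)) (G : Twist M) (n b : ℤ)
    (h : (G.tens (DGMod.res π (DGMod.self (ofRing 𝒜)))).Van n b) (x : G.I → R)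
    (hx : LK_grM G (fun j => (grZ 𝒜 j).toAddSubgroup) n b x) (hD : LK_DM π G x = 0) :
    ∃ y : G.I → R, LK_grM G (fun j => (grZ 𝒜 j).toAddSubgroup) (n + 1) b y ∧
      LK_DM π G y = x := by
  obtain ⟨y, hy, hDy⟩ := h x ((LK_R_gr π G n b x).mpr hx) ((LK_R_D π G x).trans hD)
  exact ⟨y, (LK_R_gr π G (n + 1) b y).mp hy, (LK_R_D π G y).symm.trans hDy⟩

theorem tens_free {M : DGA k} (π : DGA.Hom M (ofRing 𝒜)) (J : ℤ) (hQ : ∀ m, m ≤ J → QuasiAt π m)
    (G : Twist M) (hG : G.IsRes J) {ι : Type u} (deg : ι → ℤ) (hdeg : ∀ b, 0 ≤ deg b)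
    (hℳ : ∀ (i : ℕ) (j : ℤ) (a : R) (x : ι →₀ R), a ∈ 𝒜 i → x ∈ FreeGr 𝒜 deg j →
      a • x ∈ FreeGr 𝒜 deg (j + i)) (n m : ℤ) (hn : n ≠ 0) (hm : m ≤ J) :
    (G.tens (DGMod.res π (DGMod.ofMod (ι →₀ R) (FreeGr 𝒜 deg) hℳ))).Van n m := by
  classical
  rw [LK_van]
  intro x hx hD
  have key : ∀ b : ι, ∃ y : G.I → R, LK_grM G (fun j => (grZ 𝒜 j).toAddSubgroup) (n + 1)
      (m - deg b) y ∧ LK_DM π G y = fun α => x α b := by
    intro b
    refine LK_R_van π G n (m - deg b) (tens_R π J hQ G hG n (m - deg b) (by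
      have := hdeg b
      omega) (by
        intro h
        have := congrArg Prod.fst h
        exact hn this)) _ ?_ ?_
    · intro α
      refine ⟨fun hα => ?_, fun hα => ?_⟩
      · have h1 := (hx α).1 hα b
        show x α b ∈ grZ 𝒜 (m - deg b - G.j α)
        rwa [show m - deg b - G.j α = m - G.j α - deg b by ring]
      · show x α b = 0
        rw [(hx α).2 hα]; rfl
    · have h1 := LK_DM_map π G (Finsupp.lapply (R := R) (M := R) b) x
      rw [hD] at h1
      simp only [Finsupp.lapply_apply] at h1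
      rw [h1]
      funext β
      simp
  choose y hy hDy using key
  -- the finite support
  set S : Finset ι := Finset.univ.biUnion (fun α => (x α).support) with hS
  refine ⟨fun α => ∑ b ∈ S, Finsupp.single b (y b α), fun α => ⟨fun hα => ?_, fun hα => ?_⟩, ?_⟩
  · refine AddSubgroup.sum_mem _ fun b _ => ?_
    intro b'
    by_cases hb : b = b'
    · subst hb
      rw [Finsupp.single_eq_same]
      have h1 : y b α ∈ grZ 𝒜 (m - deg b - G.j α) := ((hy b) α).1 hα
      rwa [show m - deg b - G.j α = m - G.j α - deg b by ring] at h1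
    · rw [Finsupp.single_eq_of_ne (Ne.symm hb)]
      exact Submodule.zero_mem _
  · refine Finset.sum_eq_zero fun b _ => ?_
    rw [((hy b) α).2 hα, Finsupp.single_zero]
  · funext β
    show ∑ α, π.toR (G.c β α) • ∑ b ∈ S, Finsupp.single b (y b α) = x β
    simp only [Finset.smul_sum, Finsupp.smul_single]
    rw [Finset.sum_comm]
    have h1 : ∀ b ∈ S, ∑ α, Finsupp.single b (π.toR (G.c β α) • y b α)
        = Finsupp.single b (x β b) := by
      intro b _
      have h2 := map_sum (Finsupp.singleAddHom (M := R) b)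
        (fun α => π.toR (G.c β α) • y b α) Finset.univ
      simp only [Finsupp.singleAddHom_apply] at h2
      rw [← h2]
      congr 1
      exact congrFun (hDy b) β
    rw [Finset.sum_congr rfl h1]
    ext b'
    rw [Finset.sum_apply']
    simp only [Finsupp.single_apply]
    rw [Finset.sum_ite_eq' S b' (fun b => x β b)]
    split_ifs with h
    · rfl
    · have : b' ∉ (x β).support := by
        intro h'
        exact h (Finset.mem_biUnion.mpr ⟨β, Finset.mem_univ _, h'⟩)
      exact (Finsupp.notMem_support_iff.mp this).symm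

end Ring

end FV
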