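import Pool.Agent.helper85.FV.LK1b
import Pool.Agent.helper92.FV.LES

/-!
# MP_51fbee_al : fv:LK2

Comparison of graded `Tor` computed by a graded free resolution and by `G ⊗ N`.
-/

namespace FV

universe u

variable {k : Type u} [Field k]

section Ring

variable {R : Type u} [CommRing R] [Algebra k R] {𝒜 : ℕ → Submodule k R} [GradedAlgebra 𝒜]

/-- element form of `Tor_0` -/
lemma LK_tor_zero {N : Type u} [AddCommGroup N] [Module R N] {ℳ : ℤ → AddSubgroup N}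
    (F : GrFreeRes 𝒜 N ℳ) (m : ℤ) (x : F.ι 0 →₀ R) (hx : x ∈ FreeGr 𝒜 (F.deg 0) m) :
    (∃ y ∈ FreeGr 𝒜 (F.deg 1) m, ∀ b, (x - F.d 0 y) b ∈ irr 𝒜) ↔ F.aug x ∈ mN 𝒜 ℳ m := by
  constructor
  · rintro ⟨y, hy, h⟩
    have h1 : x - F.d 0 y ∈ FreeGr 𝒜 (F.deg 0) m := AddSubgroup.sub_mem _ hx (F.d_mem 0 m y hy)
    have h2 := (mN_free (F.deg 0) m _ h1).mpr h
    have h3 : ∀ z ∈ mN 𝒜 (FreeGr 𝒜 (F.deg 0)) m, F.aug z ∈ mN 𝒜 ℳ m := by
      intro z hz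
      refine AddSubgroup.closure_induction (p := fun z _ => F.aug z ∈ mN 𝒜 ℳ m) ?_ ?_ ?_ ?_ hz
      · rintro z ⟨i, hi, a, ha, w, hw, rfl⟩
        rw [map_smul]
        exact AddSubgroup.subset_closure ⟨i, hi, a, ha, F.aug w, F.aug_mem _ _ hw, rfl⟩
      · rw [map_zero]; exact AddSubgroup.zero_mem _
      · intro z z' _ _ h h'
        rw [map_add]; exact AddSubgroup.add_mem _ h h'
      · intro z _ h
        rw [map_neg]; exact AddSubgroup.neg_mem _ h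
    have h4 := h3 _ h2
    rwa [map_sub, F.aug_d, sub_zero] at h4
  · intro h
    have h3 : ∀ z ∈ mN 𝒜 ℳ m, ∃ w ∈ mN 𝒜 (FreeGr 𝒜 (F.deg 0)) m,
        w ∈ FreeGr 𝒜 (F.deg 0) m ∧ F.aug w = z := by
      intro z hz
      refine AddSubgroup.closure_induction (p := fun z _ =>
        ∃ w ∈ mN 𝒜 (FreeGr 𝒜 (F.deg 0)) m, w ∈ FreeGr 𝒜 (F.deg 0) m ∧ F.aug w = z)
        ?_ ?_ ?_ ?_ hz
      · rintro z ⟨i, hi, a, ha, y, hy, rfl⟩
        obtain ⟨w, hw, hwy⟩ := F.surj _ y hy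
        refine ⟨a • w, AddSubgroup.subset_closure ⟨i, hi, a, ha, w, hw, rfl⟩, ?_, ?_⟩
        · have := FreeGr_smul (F.deg 0) i (m - i) a w ha hw
          rwa [sub_add_cancel] at this
        · rw [map_smul, hwy]
      · exact ⟨0, AddSubgroup.zero_mem _, AddSubgroup.zero_mem _, map_zero _⟩
      · rintro z z' - - ⟨w, h1, h2, h3⟩ ⟨w', h1', h2', h3'⟩
        exact ⟨w + w', AddSubgroup.add_mem _ h1 h1', AddSubgroup.add_mem _ h2 h2', by
          rw [map_add, h3, h3']⟩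
      · rintro z - ⟨w, h1, h2, h3⟩
        exact ⟨-w, AddSubgroup.neg_mem _ h1, AddSubgroup.neg_mem _ h2, by rw [map_neg, h3]⟩
    obtain ⟨w, hw1, hw2, hw3⟩ := h3 _ h
    obtain ⟨y, hy, hdy⟩ := F.exact_zero m (x - w) (AddSubgroup.sub_mem _ hx hw2) (by
      rw [map_sub, hw3, sub_self])
    refine ⟨y, hy, fun b => ?_⟩
    rw [hdy, sub_sub_cancel]
    exact (mN_free (F.deg 0) m w hw2).mp hw1 b

omit [GradedAlgebra 𝒜] in
lemma LK_FreeGr_neg {ι : Type u} (deg : ι → ℤ) (hdeg : ∀ b, 0 ≤ deg b) (j : ℤ) (hj : j < 0) :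
    FreeGr 𝒜 deg j = ⊥ := by
  rw [eq_bot_iff]
  intro x hx
  have : x = 0 := by
    ext b
    have h := hx b
    unfold grZ at h
    have := hdeg b
    rw [if_neg (by omega)] at h
    exact (Submodule.mem_bot k).mp h
  rw [this]
  exact AddSubgroup.zero_mem _

/-- the grading of the first syzygy -/
noncomputable def LK_syzGr {N : Type u} [AddCommGroup N] [Module R N] {ℳ : ℤ → AddSubgroup N}
    (F : GrFreeRes 𝒜 N ℳ) (m : ℤ) : AddSubgroup (LinearMap.ker F.aug) :=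
  (FreeGr 𝒜 (F.deg 0) m).comap (LinearMap.ker F.aug).subtype.toAddMonoidHom

omit [GradedAlgebra 𝒜] in
lemma LK_mem_syzGr {N : Type u} [AddCommGroup N] [Module R N] {ℳ : ℤ → AddSubgroup N}
    (F : GrFreeRes 𝒜 N ℳ) (m : ℤ) (x : LinearMap.ker F.aug) :
    x ∈ LK_syzGr F m ↔ (x : F.ι 0 →₀ R) ∈ FreeGr 𝒜 (F.deg 0) m := Iff.rfl

/-- the shifted resolution of the first syzygy -/
noncomputable def LK_syz {N : Type u} [AddCommGroup N] [Module R N] {ℳ : ℤ → AddSubgroup N}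
    (F : GrFreeRes 𝒜 N ℳ) : GrFreeRes 𝒜 (LinearMap.ker F.aug) (LK_syzGr F) where
  ι n := F.ι (n + 1)
  deg n := F.deg (n + 1)
  deg_nonneg n := F.deg_nonneg (n + 1)
  d n := F.d (n + 1)
  aug := (F.d 0).codRestrict _ (fun x => LinearMap.mem_ker.mpr (F.aug_d x))
  d_mem n := F.d_mem (n + 1)
  aug_mem m x hx := F.d_mem 0 m x hx
  aug_d x := Subtype.ext (F.d_d 0 x)
  d_d n := F.d_d (n + 1)
  surj m y hy := by
    obtain ⟨x, hx, h⟩ := F.exact_zero m y.1 hy (LinearMap.mem_ker.mp y.2)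
    exact ⟨x, hx, Subtype.ext h⟩
  exact_zero m x hx h := F.exact_succ 0 m x hx (congrArg Subtype.val h)
  exact_succ n m x hx h := F.exact_succ (n + 1) m x hx h

lemma LK_syz_smul {N : Type u} [AddCommGroup N] [Module R N] {ℳ : ℤ → AddSubgroup N}
    (F : GrFreeRes 𝒜 N ℳ) (i : ℕ) (j : ℤ) (a : R) (x : LinearMap.ker F.aug) (ha : a ∈ 𝒜 i)
    (hx : x ∈ LK_syzGr F j) : a • x ∈ LK_syzGr F (j + i) :=
  FreeGr_smul (F.deg 0) i j a x.1 ha hx

omit [GradedAlgebra 𝒜] in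
lemma LK_syz_neg {N : Type u} [AddCommGroup N] [Module R N] {ℳ : ℤ → AddSubgroup N}
    (F : GrFreeRes 𝒜 N ℳ) (j : ℤ) (hj : j < 0) : LK_syzGr F j = ⊥ := by
  rw [eq_bot_iff]
  intro x hx
  have h : (x : F.ι 0 →₀ R) ∈ FreeGr 𝒜 (F.deg 0) j := hx
  rw [LK_FreeGr_neg (F.deg 0) (F.deg_nonneg 0) j hj] at h
  have h2 : (x : F.ι 0 →₀ R) = 0 := h
  have : x = 0 := Subtype.ext h2
  rw [this]
  exact AddSubgroup.zero_mem _

/-- a vector of degree `(0, m)` is a multiple of the origin -/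
lemma LK_grM_zero_iff {M : DGA k} (G : Twist M) (J : ℤ) (hG : G.IsRes J) (o : G.I)
    (ho1 : G.n o = 0) (ho2 : G.j o = 0) {N : Type u} [AddCommGroup N] (ℳ : ℤ → AddSubgroup N)
    (m : ℤ) (x : G.I → N) : LK_grM G ℳ 0 m x ↔ x o ∈ ℳ m ∧ x = LK_s G o (x o) := by
  have horig := LK_orig G J hG o ho1
  constructor
  · intro h
    refine ⟨by simpa [ho2] using (h o).1 ho1, ?_⟩
    funext α
    by_cases hα : α = o
    · rw [hα, LK_s_self]
    · rw [LK_s_ne _ _ _ _ hα]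
      have := (horig α hα).1
      exact (h α).2 (by omega)
  · rintro ⟨h1, h2⟩ α
    refine ⟨fun hα => ?_, fun hα => ?_⟩
    · have : α = o := by
        by_contra h
        have := (horig α h).1
        omega
      rw [this, ho2, sub_zero]
      exact h1
    · have hne : α ≠ o := by
        rintro rfl
        exact hα ho1
      rw [h2]
      exact LK_s_ne _ _ _ _ hne

/-- the differential maps degree `(n, m)` to degree `(n - 1, m)` -/
lemma LK_DM_mem {M : DGA k} (π : DGA.Hom M (ofRing 𝒜)) (G : Twist M)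
    (N : Type u) [AddCommGroup N] [Module R N] (ℳ : ℤ → AddSubgroup N)
    (hℳ : ∀ (i : ℕ) (j : ℤ) (a : R) (x : N), a ∈ 𝒜 i → x ∈ ℳ j → a • x ∈ ℳ (j + i))
    (n m : ℤ) (x : G.I → N) (hx : LK_grM G ℳ n m x) : LK_grM G ℳ (n - 1) m (LK_DM π G x) := by
  have h := (G.tens (DGMod.res π (DGMod.ofMod N ℳ hℳ))).D_mem
    ((LK_gr π G N ℳ hℳ n m x).mpr hx)
  have h2 := (LK_gr π G N ℳ hℳ (n - 1) m _).mp h
  have h3 := LK_D π G N ℳ hℳ x
  exact h3 ▸ h2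

theorem link_zero {M : DGA k} (π : DGA.Hom M (ofRing 𝒜)) (J : ℤ)
    (hQ : ∀ m, m ≤ J → QuasiAt π m)
    (G : Twist M) (hG : G.IsRes J) (N : Type u) [AddCommGroup N] [Module R N]
    (ℳ : ℤ → AddSubgroup N)
    (hℳ : ∀ (i : ℕ) (j : ℤ) (a : R) (x : N), a ∈ 𝒜 i → x ∈ ℳ j → a • x ∈ ℳ (j + i))
    (hneg : ∀ j, j < 0 → ℳ j = ⊥)
    (F : GrFreeRes 𝒜 N ℳ) (m : ℤ) (hm : m ≤ J) :
    F.TorVan 0 m ↔ (G.tens (DGMod.res π (DGMod.ofMod N ℳ hℳ))).Van 0 m := by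
  obtain ⟨o, ho1, ho2, -⟩ := hG.orig
  rw [LK_van]
  constructor
  · intro h x hx _
    obtain ⟨h1, h2⟩ := (LK_grM_zero_iff G J hG o ho1 ho2 ℳ m x).mp hx
    obtain ⟨w, hw, hwx⟩ := F.surj m _ h1
    have h3 := (LK_tor_zero F m w hw).mp (h w hw)
    rw [hwx] at h3
    obtain ⟨Y, hY, hDY⟩ := (LK_zero_iff π J hQ G hG N ℳ hℳ hneg m hm _ o ho1 ho2).mp h3
    refine ⟨Y, ?_, hDY.trans h2.symm⟩
    rwa [zero_add]
  · intro h x hx
    rw [LK_tor_zero F m x hx]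
    have h0 : LK_grM G ℳ 0 m (LK_s G o (F.aug x)) := by
      rw [LK_grM_zero_iff G J hG o ho1 ho2 ℳ m, LK_s_self]
      exact ⟨F.aug_mem m x hx, rfl⟩
    have h1 := LK_DM_mem π G N ℳ hℳ 0 m _ h0
    have h2 : LK_DM π G (LK_s G o (F.aug x)) = 0 := by
      funext α
      refine (h1 α).2 ?_
      have := G.n_nonneg α
      omega
    obtain ⟨Y, hY, hDY⟩ := h _ h0 h2
    rw [zero_add] at hY
    exact (LK_zero_iff π J hQ G hG N ℳ hℳ hneg m hm _ o ho1 ho2).mpr ⟨Y, hY, hDY⟩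

lemma LK_ofMod_gr {N : Type u} [AddCommGroup N] [Module R N] {ℳ : ℤ → AddSubgroup N}
    {hℳ : ∀ (i : ℕ) (j : ℤ) (a : R) (x : N), a ∈ 𝒜 i → x ∈ ℳ j → a • x ∈ ℳ (j + i)}
    {M : DGA k} (π : DGA.Hom M (ofRing 𝒜)) (n m : ℤ) (x : N) :
    x ∈ (DGMod.res π (DGMod.ofMod N ℳ hℳ)).gr n m ↔ (n = 0 → x ∈ ℳ m) ∧ (n ≠ 0 → x = 0) := by
  show x ∈ (if n = 0 then ℳ m else ⊥ : AddSubgroup N) ↔ _
  by_cases h : n = 0
  · rw [if_pos h]
    exact ⟨fun hx => ⟨fun _ => hx, fun h' => absurd h h'⟩, fun hx => hx.1 h⟩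
  · rw [if_neg h]
    exact ⟨fun hx => ⟨fun h' => absurd h' h, fun _ => hx⟩, fun hx => hx.2 h⟩

/-- the augmentation as an additive map -/
noncomputable def LK_augHom {N : Type u} [AddCommGroup N] [Module R N] {ℳ : ℤ → AddSubgroup N}
    (F : GrFreeRes 𝒜 N ℳ) : (F.ι 0 →₀ R) →+ N := F.aug.toAddMonoidHom

omit [GradedAlgebra 𝒜] in
lemma LK_aug_smul {N : Type u} [AddCommGroup N] [Module R N] {ℳ : ℤ → AddSubgroup N}
    (F : GrFreeRes 𝒜 N ℳ) (r : R) (y : F.ι 0 →₀ R) :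
    LK_augHom F (r • y) = r • LK_augHom F y := map_smul F.aug r y

omit [GradedAlgebra 𝒜] in
lemma LK_aug_ker {N : Type u} [AddCommGroup N] [Module R N] {ℳ : ℤ → AddSubgroup N}
    (F : GrFreeRes 𝒜 N ℳ) (x : LinearMap.ker F.aug) :
    LK_augHom F ((LinearMap.ker F.aug).subtype.toAddMonoidHom x) = 0 := LinearMap.mem_ker.mp x.2

/-- the short exact sequence of the first syzygy -/
lemma LK_ses {M : DGA k} (π : DGA.Hom M (ofRing 𝒜)) (N : Type u) [AddCommGroup N] [Module R N]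
    (ℳ : ℤ → AddSubgroup N)
    (hℳ : ∀ (i : ℕ) (j : ℤ) (a : R) (x : N), a ∈ 𝒜 i → x ∈ ℳ j → a • x ∈ ℳ (j + i))
    (F : GrFreeRes 𝒜 N ℳ) :
    Nonempty (SES (DGMod.res π (DGMod.ofMod (LinearMap.ker F.aug) (LK_syzGr F)
        (LK_syz_smul F)))
      (DGMod.res π (DGMod.ofMod (F.ι 0 →₀ R) (FreeGr 𝒜 (F.deg 0))
        (FreeGr_smul (F.deg 0))))
      (DGMod.res π (DGMod.ofMod N ℳ hℳ)) 0 0 0 0) := by
  have hε : ∀ r : M.A, M.εp 0 r = r := fun r => by simp [DGA.εp]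
  refine ⟨{
    f := (LinearMap.ker F.aug).subtype.toAddMonoidHom
    g := LK_augHom F
    f_mem := ?_
    g_mem := ?_
    f_d := ?_
    g_d := ?_
    f_smul := ?_
    g_smul := ?_
    inj := ?_
    gf := ?_
    exact := ?_
    surj := ?_ }⟩
  · intro n m x hx
    rw [add_zero, add_zero]
    have h := (LK_ofMod_gr (N := LinearMap.ker F.aug) (hℳ := LK_syz_smul F) π n m x).mp hx
    exact (LK_ofMod_gr (N := F.ι 0 →₀ R) (hℳ := FreeGr_smul (F.deg 0)) π n m _).mpr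
      ⟨fun h0 => h.1 h0, fun h0 => congrArg Subtype.val (h.2 h0)⟩
  · intro n m x hx
    rw [add_zero, add_zero]
    have h := (LK_ofMod_gr (N := F.ι 0 →₀ R) (hℳ := FreeGr_smul (F.deg 0)) π n m x).mp hx
    refine (LK_ofMod_gr (N := N) (hℳ := hℳ) π n m _).mpr
      ⟨fun h0 => F.aug_mem m x (h.1 h0), fun h0 => ?_⟩
    have h1 := congrArg F.aug (h.2 h0)
    rw [map_zero] at h1
    exact h1
  · intro x
    show (0 : F.ι 0 →₀ R) = sg 0 • (((0 : LinearMap.ker F.aug) : F.ι 0 →₀ R))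
    simp
  · intro x
    show (0 : N) = sg 0 • F.aug (0 : F.ι 0 →₀ R)
    simp
  · intro r x
    rw [hε]
    rfl
  · intro r x
    rw [hε]
    exact LK_aug_smul F (π.toR r) x
  · intro n m x _ h
    exact Subtype.ext h
  · intro x
    exact LK_aug_ker F x
  · intro n m x hx h
    have h1 := (LK_ofMod_gr (N := F.ι 0 →₀ R) (hℳ := FreeGr_smul (F.deg 0)) π n m x).mp hx
    refine ⟨(⟨x, LinearMap.mem_ker.mpr h⟩ : LinearMap.ker F.aug), ?_, rfl⟩
    rw [sub_zero, sub_zero]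
    exact (LK_ofMod_gr (N := LinearMap.ker F.aug) (hℳ := LK_syz_smul F) π n m _).mpr
      ⟨fun h0 => h1.1 h0, fun h0 => Subtype.ext (h1.2 h0)⟩
  · intro n m x hx
    have h1 := (LK_ofMod_gr (N := N) (hℳ := hℳ) π n m x).mp hx
    rw [sub_zero, sub_zero]
    by_cases h0 : n = 0
    · obtain ⟨y, hy, hyx⟩ := F.surj m x (h1.1 h0)
      exact ⟨y, (LK_ofMod_gr (N := F.ι 0 →₀ R) (hℳ := FreeGr_smul (F.deg 0)) π n m y).mpr
        ⟨fun _ => hy, fun h => absurd h0 h⟩, hyx⟩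
    · refine ⟨(0 : F.ι 0 →₀ R), AddSubgroup.zero_mem _, ?_⟩
      rw [h1.2 h0]
      exact map_zero F.aug

/-- degree one: the diagram chase -/
lemma LK_one {M : DGA k} (π : DGA.Hom M (ofRing 𝒜)) (J : ℤ)
    (hQ : ∀ m, m ≤ J → QuasiAt π m)
    (G : Twist M) (hG : G.IsRes J) (N : Type u) [AddCommGroup N] [Module R N]
    (ℳ : ℤ → AddSubgroup N)
    (hℳ : ∀ (i : ℕ) (j : ℤ) (a : R) (x : N), a ∈ 𝒜 i → x ∈ ℳ j → a • x ∈ ℳ (j + i))
    (F : GrFreeRes 𝒜 N ℳ) (m : ℤ) (hm : m ≤ J) :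
    (G.tens (DGMod.res π (DGMod.ofMod N ℳ hℳ))).Van 1 m ↔
      ∀ w : LinearMap.ker F.aug, w ∈ LK_syzGr F m →
        (w : F.ι 0 →₀ R) ∈ mN 𝒜 (FreeGr 𝒜 (F.deg 0)) m → w ∈ mN 𝒜 (LK_syzGr F) m := by
  classical
  obtain ⟨o, ho1, ho2, -⟩ := hG.orig
  have hfree := tens_free π J hQ G hG (F.deg 0) (F.deg_nonneg 0) (FreeGr_smul (F.deg 0)) 1 m
    one_ne_zero hm
  have hnegF : ∀ j, j < 0 → FreeGr 𝒜 (F.deg 0) j = ⊥ :=
    fun j hj => LK_FreeGr_neg (F.deg 0) (F.deg_nonneg 0) j hj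
  -- lifting vectors
  have lift : ∀ n : ℤ, ∀ z : G.I → N, LK_grM G ℳ n m z →
      ∃ x : G.I → (F.ι 0 →₀ R), LK_grM G (FreeGr 𝒜 (F.deg 0)) n m x ∧
        (fun α => F.aug (x α)) = z := by
    intro n z hz
    have h1 : ∀ α, ∃ x : F.ι 0 →₀ R, (G.n α = n → x ∈ FreeGr 𝒜 (F.deg 0) (m - G.j α)) ∧
        (G.n α ≠ n → x = 0) ∧ F.aug x = z α := by
      intro α
      by_cases hα : G.n α = n
      · obtain ⟨x, hx, hxz⟩ := F.surj _ _ ((hz α).1 hα)
        exact ⟨x, fun _ => hx, fun h => absurd hα h, hxz⟩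
      · exact ⟨0, fun h => absurd h hα, fun _ => rfl, by rw [map_zero, (hz α).2 hα]⟩
    choose x hx1 hx2 hx3 using h1
    exact ⟨x, fun α => ⟨hx1 α, hx2 α⟩, funext hx3⟩
  -- vectors in the kernel
  have ker : ∀ n : ℤ, ∀ x : G.I → (F.ι 0 →₀ R), LK_grM G (FreeGr 𝒜 (F.deg 0)) n m x →
      (∀ α, F.aug (x α) = 0) → ∃ Y : G.I → LinearMap.ker F.aug, LK_grM G (LK_syzGr F) n m Y ∧
        (fun α => ((Y α : LinearMap.ker F.aug) : F.ι 0 →₀ R)) = x := by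
    intro n x hx h
    refine ⟨fun α => ⟨x α, LinearMap.mem_ker.mpr (h α)⟩, fun α => ⟨fun hα => ?_, fun hα => ?_⟩,
      rfl⟩
    · exact (hx α).1 hα
    · exact Subtype.ext ((hx α).2 hα)
  have hsub : ∀ Y : G.I → LinearMap.ker F.aug,
      LK_DM π G (fun α => ((Y α : LinearMap.ker F.aug) : F.ι 0 →₀ R))
        = fun β => ((LK_DM π G Y β : LinearMap.ker F.aug) : F.ι 0 →₀ R) :=
    fun Y => LK_DM_map π G (LinearMap.ker F.aug).subtype Y
  rw [LK_van]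
  rw [LK_van] at hfree
  constructor
  · intro h w hw hmw
    obtain ⟨x, hx, hDx⟩ := (LK_zero_iff π J hQ G hG _ _ (FreeGr_smul (F.deg 0)) hnegF m hm _
      o ho1 ho2).mp hmw
    have hz : LK_grM G ℳ 1 m (fun α => F.aug (x α)) := fun α =>
      ⟨fun hα => F.aug_mem _ _ ((hx α).1 hα), fun hα => by
        show F.aug (x α) = 0
        rw [(hx α).2 hα, map_zero]⟩
    have hDz : LK_DM π G (fun α => F.aug (x α)) = 0 := by
      rw [LK_DM_map, hDx]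
      funext β
      by_cases hβ : β = o
      · rw [hβ, LK_s_self]
        exact LinearMap.mem_ker.mp w.2
      · rw [LK_s_ne _ _ _ _ hβ, map_zero]
        rfl
    obtain ⟨u', hu', hDu'⟩ := h _ hz hDz
    obtain ⟨u, hu, huu'⟩ := lift _ u' hu'
    have hDu := LK_DM_mem π G _ _ (FreeGr_smul (F.deg 0)) _ m u hu
    rw [add_sub_cancel_right] at hDu
    obtain ⟨Y, hY, hYx⟩ := ker 1 (x - LK_DM π G u) (LK_grM_sub G _ 1 m hx hDu) (by
      intro α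
      rw [Pi.sub_apply, map_sub]
      have h1 := congrFun (LK_DM_map π G F.aug u) α
      rw [huu', hDu'] at h1
      simp only at h1
      rw [← h1, sub_self])
    refine (LK_zero_iff π J hQ G hG _ _ (LK_syz_smul F) (LK_syz_neg F) m hm _ o ho1 ho2).mpr
      ⟨Y, hY, ?_⟩
    have h2 := hsub Y
    rw [hYx, LK_DM_sub, LK_DM_DM, sub_zero, hDx] at h2
    funext β
    refine Subtype.ext ?_
    rw [← congrFun h2 β]
    by_cases hβ : β = o
    · rw [hβ, LK_s_self, LK_s_self]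
    · rw [LK_s_ne _ _ _ _ hβ, LK_s_ne _ _ _ _ hβ]
      rfl
  · intro h z hz hDz
    obtain ⟨x, hx, hxz⟩ := lift _ z hz
    have hDx := LK_DM_mem π G _ _ (FreeGr_smul (F.deg 0)) _ m x hx
    rw [sub_self] at hDx
    obtain ⟨h1, h2⟩ := (LK_grM_zero_iff G J hG o ho1 ho2 _ m _).mp hDx
    have haug : F.aug (LK_DM π G x o) = 0 := by
      have h3 := congrFun (LK_DM_map π G F.aug x) o
      rw [hxz, hDz] at h3
      exact h3.symm
    have h4 : LK_DM π G x o ∈ mN 𝒜 (FreeGr 𝒜 (F.deg 0)) m :=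
      (LK_zero_iff π J hQ G hG _ _ (FreeGr_smul (F.deg 0)) hnegF m hm _ o ho1 ho2).mpr
        ⟨x, hx, h2⟩
    have h5 := h ⟨LK_DM π G x o, LinearMap.mem_ker.mpr haug⟩ h1 h4
    obtain ⟨Y, hY, hDY⟩ := (LK_zero_iff π J hQ G hG _ _ (LK_syz_smul F) (LK_syz_neg F) m hm _
      o ho1 ho2).mp h5
    have hY' : LK_grM G (FreeGr 𝒜 (F.deg 0)) 1 m
        (fun α => ((Y α : LinearMap.ker F.aug) : F.ι 0 →₀ R)) := fun α =>
      ⟨fun hα => (hY α).1 hα, fun hα => congrArg Subtype.val ((hY α).2 hα)⟩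
    obtain ⟨u, hu, hDu⟩ := hfree (x - fun α => ((Y α : LinearMap.ker F.aug) : F.ι 0 →₀ R))
      (LK_grM_sub G _ 1 m hx hY') (by
        rw [LK_DM_sub, hsub, h2]
        funext β
        rw [Pi.sub_apply, hDY]
        by_cases hβ : β = o
        · rw [hβ, LK_s_self, LK_s_self]
          exact sub_self _
        · rw [LK_s_ne _ _ _ _ hβ, LK_s_ne _ _ _ _ hβ]
          exact sub_self _)
    refine ⟨fun α => F.aug (u α), fun α => ⟨fun hα => F.aug_mem _ _ ((hu α).1 hα), fun hα => ?_⟩,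
      ?_⟩
    · show F.aug (u α) = 0
      rw [(hu α).2 hα, map_zero]
    · rw [LK_DM_map, hDu, ← hxz]
      funext β
      rw [Pi.sub_apply, map_sub, LinearMap.mem_ker.mp (Y β).2, sub_zero]

theorem link {M : DGA k} (π : DGA.Hom M (ofRing 𝒜)) (J : ℤ) (hQ : ∀ m, m ≤ J → QuasiAt π m)
    (G : Twist M) (hG : G.IsRes J) (N : Type u) [AddCommGroup N] [Module R N]
    (ℳ : ℤ → AddSubgroup N)
    (hℳ : ∀ (i : ℕ) (j : ℤ) (a : R) (x : N), a ∈ 𝒜 i → x ∈ ℳ j → a • x ∈ ℳ (j + i))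
    (hneg : ∀ j, j < 0 → ℳ j = ⊥)
    (F : GrFreeRes 𝒜 N ℳ) (n : ℕ) (m : ℤ) (hm : m ≤ J) :
    F.TorVan n m ↔ (G.tens (DGMod.res π (DGMod.ofMod N ℳ hℳ))).Van n m := by
  match n with
  | 0 => exact link_zero π J hQ G hG N ℳ hℳ hneg F m hm
  | 1 =>
    rw [Nat.cast_one, LK_one π J hQ G hG N ℳ hℳ F m hm]
    constructor
    · intro h w hw hmw
      obtain ⟨x, hx, hxw⟩ := F.exact_zero m w.1 hw (LinearMap.mem_ker.mp w.2)
      have h1 := h x hx (by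
        rw [hxw]
        exact (mN_free (F.deg 0) m _ hw).mp hmw)
      have h2 := (LK_tor_zero (LK_syz F) m x hx).mp h1
      have h3 : (LK_syz F).aug x = w := Subtype.ext hxw
      rwa [h3] at h2
    · intro h x hx hirr
      have h0 := F.d_mem 0 m x hx
      have h1 := h ((LK_syz F).aug x) h0 ((mN_free (F.deg 0) m _ h0).mpr hirr)
      exact (LK_tor_zero (LK_syz F) m x hx).mpr h1
  | n + 2 =>
    have ih := link π J hQ G hG (LinearMap.ker F.aug) (LK_syzGr F) (LK_syz_smul F)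
      (LK_syz_neg F) (LK_syz F) (n + 1) m hm
    have e : F.TorVan (n + 2) m ↔ (LK_syz F).TorVan (n + 1) m := Iff.rfl
    rw [e, ih]
    obtain ⟨S⟩ := LK_ses π N ℳ hℳ F
    obtain ⟨B⟩ := SES.tens G S
    have hf2 := tens_free π J hQ G hG (F.deg 0) (F.deg_nonneg 0) (FreeGr_smul (F.deg 0))
      ((n : ℤ) + 2) m (by omega) hm
    have hf1 := tens_free π J hQ G hG (F.deg 0) (F.deg_nonneg 0) (FreeGr_smul (F.deg 0))
      ((n : ℤ) + 1) m (by omega) hm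
    constructor
    · intro h1
      have := B.L2 ((n : ℤ) + 2) m hf2 (by
        have e1 : (n : ℤ) + 2 - 1 - 0 = ((n + 1 : ℕ) : ℤ) := by push_cast; ring
        rw [e1, sub_zero]
        exact h1)
      rw [add_zero, add_zero] at this
      have e2 : ((n + 2 : ℕ) : ℤ) = (n : ℤ) + 2 := by push_cast; ring
      rw [e2]
      exact this
    · intro h3
      have := B.L3 ((n : ℤ) + 1) m (by
        have e1 : (n : ℤ) + 1 + 1 + 0 = ((n + 2 : ℕ) : ℤ) := by push_cast; ring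
        rw [e1, add_zero]
        exact h3) hf1
      rw [sub_zero, sub_zero] at this
      have e2 : ((n + 1 : ℕ) : ℤ) = (n : ℤ) + 1 := by push_cast; ring
      rw [e2]
      exact this

end Ring

end FV
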