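import Pool.Agent.helper85.FV.LK1
import Pool.Agent.helper37.FV.F1

/-!
# MP_51fbee_al : fv:LK3

The residue field and the Frobenius-Veronese module.
-/

namespace FV

universe u

variable {k : Type u} [Field k]

section Ring

variable {R : Type u} [CommRing R] [Algebra k R] {𝒜 : ℕ → Submodule k R} [GradedAlgebra 𝒜]

lemma LK_irr_smul {a : R} (ha : a ∈ irr 𝒜) (x : R ⧸ irr 𝒜) : a • x = 0 := by
  obtain ⟨y, rfl⟩ := Ideal.Quotient.mk_surjective x
  have : a • (Ideal.Quotient.mk (irr 𝒜) y) = Ideal.Quotient.mk (irr 𝒜) (a * y) := rfl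
  rw [this, Ideal.Quotient.eq_zero_iff_mem]
  exact Ideal.mul_mem_right _ _ ha

set_option linter.unusedVariables false in
theorem resGr_smul (h : StdGraded 𝒜) (i : ℕ) (j : ℤ) (a : R) (x : R ⧸ irr 𝒜) (ha : a ∈ 𝒜 i)
    (hx : x ∈ resGr 𝒜 j) : a • x ∈ resGr 𝒜 (j + i) := by
  by_cases hi : i = 0
  · subst hi
    unfold resGr at hx ⊢
    by_cases hj : j = 0
    · rw [if_pos (by simpa using hj)]
      exact AddSubgroup.mem_top _
    · rw [if_neg hj] at hx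
      have : x = 0 := hx
      rw [this, smul_zero]
      exact AddSubgroup.zero_mem _
  · rw [LK_irr_smul (LK_irr (by omega) ha)]
    exact AddSubgroup.zero_mem _

theorem link_res (h : StdGraded 𝒜) {M : DGA k} (π : DGA.Hom M (ofRing 𝒜)) (G : Twist M)
    (hℳ : ∀ (i : ℕ) (j : ℤ) (a : R) (x : R ⧸ irr 𝒜), a ∈ 𝒜 i → x ∈ resGr 𝒜 j →
      a • x ∈ resGr 𝒜 (j + i)) (n b : ℤ) :
    (G.tens (DGMod.res π (DGMod.ofMod (R ⧸ irr 𝒜) (resGr 𝒜) hℳ))).Van n b ↔ ¬ G.Has n b := by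
  rw [tens_triv G (DGMod.res π (DGMod.ofMod (R ⧸ irr 𝒜) (resGr 𝒜) hℳ)) (fun _ => rfl) ?_]
  · have hnt : (⊤ : AddSubgroup (R ⧸ irr 𝒜)) ≠ ⊥ := by
      intro h0
      have h1 : (1 : R ⧸ irr 𝒜) ∈ (⊤ : AddSubgroup (R ⧸ irr 𝒜)) := AddSubgroup.mem_top _
      rw [h0] at h1
      have h2 : (1 : R ⧸ irr 𝒜) = 0 := h1
      have h3 : Ideal.Quotient.mk (irr 𝒜) 1 = 0 := h2
      rw [Ideal.Quotient.eq_zero_iff_mem] at h3
      have h4 := LK_irr_zero (SetLike.GradedOne.one_mem (A := 𝒜)) h3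
      have := h.nontriv
      exact one_ne_zero h4
    constructor
    · rintro h1 ⟨α, hα1, hα2⟩
      have h2 := h1 α
      have h3 : (if n - G.n α = 0 then resGr 𝒜 (b - G.j α) else ⊥ : AddSubgroup (R ⧸ irr 𝒜))
          = ⊥ := h2
      rw [if_pos (by omega), show b - G.j α = 0 by omega] at h3
      unfold resGr at h3
      rw [if_pos rfl] at h3
      exact hnt h3
    · intro h1 α
      show (if n - G.n α = 0 then resGr 𝒜 (b - G.j α) else ⊥ : AddSubgroup (R ⧸ irr 𝒜)) = ⊥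
      split_ifs with h2
      · unfold resGr
        rw [if_neg]
        intro h3
        exact h1 ⟨α, by omega, by omega⟩
      · rfl
  · intro i j hij a ha x
    show (π.toR a) • (show R ⧸ irr 𝒜 from x) = 0
    refine LK_irr_smul ?_ _
    by_cases hi : i = 0
    · subst hi
      by_cases hj : j < 0
      · rw [LK_toR_neg π ha hj]
        exact Submodule.zero_mem _
      · have h1 := LK_toR_mem π ha (by omega)
        refine LK_irr ?_ h1
        have : j ≠ 0 := by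
          rintro rfl
          exact hij rfl
        omega
    · rw [LK_toR_zero π ha hi]
      exact Submodule.zero_mem _

lemma LK_grZ_pow (q : ℕ) {i : ℕ} {j : ℤ} {a x : R} (ha : a ∈ 𝒜 i)
    (hx : x ∈ grZ 𝒜 ((q : ℤ) * j)) : a ^ q * x ∈ grZ 𝒜 ((q : ℤ) * (j + i)) := by
  unfold grZ at hx ⊢
  by_cases h1 : 0 ≤ (q : ℤ) * j
  · rw [if_pos h1] at hx
    have e : (q : ℤ) * (j + i) = q * j + ((q * i : ℕ) : ℤ) := by push_cast; ring
    rw [if_pos (by rw [e]; positivity)]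
    have h2 : a ^ q ∈ 𝒜 (q * i) := by
      have := SetLike.pow_mem_graded q ha
      simpa [smul_eq_mul] using this
    have h3 := SetLike.GradedMul.mul_mem h2 hx
    rw [e, show ((q : ℤ) * j + ((q * i : ℕ) : ℤ)).toNat = q * i + ((q : ℤ) * j).toNat by
      rw [Int.toNat_add h1 (by positivity)]
      rw [Int.toNat_natCast]
      ring]
    exact h3
  · rw [if_neg h1] at hx
    rw [(Submodule.mem_bot k).mp hx, mul_zero]
    exact Submodule.zero_mem _

lemma LK_frob_smul (p : ℕ) [ExpChar R p] (e : ℕ) (a : R) (x : FrobR R p e) :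
    a • x = (show FrobR R p e from (a ^ (p ^ e) * (show R from x))) := by
  show (iterateFrobenius R p e a) * (show R from x) = _
  rw [iterateFrobenius_def]

theorem verSubGr_smul (p : ℕ) [ExpChar R p] (e : ℕ) (i : ℕ) (j : ℤ) (a : R)
    (x : verSub 𝒜 p e) (ha : a ∈ 𝒜 i) (hx : x ∈ verSubGr 𝒜 p e j) :
    a • x ∈ verSubGr 𝒜 p e (j + i) := by
  show (a • (x : FrobR R p e)) ∈ verGr 𝒜 p e (j + i)
  rw [LK_frob_smul]
  have h : (show R from (x : FrobR R p e)) ∈ grZ 𝒜 (((p ^ e : ℕ) : ℤ) * j) := hx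
  have h2 := LK_grZ_pow (p ^ e) ha h
  exact h2

lemma LK_ver_gr (p : ℕ) [ExpChar R p] (e : ℕ) {M : DGA k} (π : DGA.Hom M (ofRing 𝒜))
    (G : Twist M) (n m : ℤ)
    (x : (G.tens (DGMod.ver π p e 0 (DGMod.self (ofRing 𝒜)))).X) :
    x ∈ (G.tens (DGMod.ver π p e 0 (DGMod.self (ofRing 𝒜)))).gr n m ↔
      LK_grM G (verGr 𝒜 p e) n m (show G.I → FrobR R p e from x) := by
  show (∀ α, (show G.I → R from x) α ∈
    (if n - G.n α = 0 ∧ 0 ≤ ((p ^ e : ℕ) : ℤ) * (m - G.j α) + 0 then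
      𝒜 (((p ^ e : ℕ) : ℤ) * (m - G.j α) + 0).toNat else ⊥ : Submodule k R)) ↔ _
  refine forall_congr' fun α => ?_
  rw [add_zero]
  by_cases h : G.n α = n
  · have h0 : n - G.n α = 0 := by omega
    simp only [h0, true_and]
    exact ⟨fun hx => ⟨fun _ => hx, fun h' => absurd h h'⟩, fun hx => hx.1 h⟩
  · rw [if_neg (by omega)]
    exact ⟨fun hx => ⟨fun h' => absurd h' h, fun _ => hx⟩, fun hx => hx.2 h⟩

lemma LK_ver_D (p : ℕ) [ExpChar R p] (e : ℕ) {M : DGA k} (π : DGA.Hom M (ofRing 𝒜))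
    (G : Twist M) (x : G.I → FrobR R p e) :
    (G.tens (DGMod.ver π p e 0 (DGMod.self (ofRing 𝒜)))).D x
      = (show G.I → FrobR R p e from LK_DM π G x) := by
  funext β
  show sg (G.n β) • (0 : FrobR R p e) + ∑ α, (π.toR (G.c β α)) • x α
    = ∑ α, (π.toR (G.c β α)) • x α
  rw [smul_zero, zero_add]

lemma LK_ver_van (p : ℕ) [ExpChar R p] (e : ℕ) {M : DGA k} (π : DGA.Hom M (ofRing 𝒜))
    (G : Twist M) (n m : ℤ) :
    (G.tens (DGMod.ver π p e 0 (DGMod.self (ofRing 𝒜)))).Van n m ↔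
      ∀ x : G.I → FrobR R p e, LK_grM G (verGr 𝒜 p e) n m x → LK_DM π G x = 0 →
        ∃ y : G.I → FrobR R p e, LK_grM G (verGr 𝒜 p e) (n + 1) m y ∧ LK_DM π G y = x := by
  constructor
  · intro h x hx hD
    obtain ⟨y, hy, hDy⟩ := h x ((LK_ver_gr p e π G n m x).mpr hx)
      ((LK_ver_D p e π G x).trans hD)
    exact ⟨y, (LK_ver_gr p e π G (n + 1) m y).mp hy, (LK_ver_D p e π G y).symm.trans hDy⟩
  · intro h x hx hD
    obtain ⟨y, hy, hDy⟩ := h x ((LK_ver_gr p e π G n m x).mp hx)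
      ((LK_ver_D p e π G x).symm.trans hD)
    exact ⟨y, (LK_ver_gr p e π G (n + 1) m y).mpr hy, (LK_ver_D p e π G y).trans hDy⟩

omit [GradedAlgebra 𝒜] in
lemma LK_ver_sub (p : ℕ) [ExpChar R p] (e : ℕ) (j : ℤ) (x : FrobR R p e)
    (hx : x ∈ verGr 𝒜 p e j) : x ∈ verSub 𝒜 p e :=
  Submodule.subset_span (Set.mem_iUnion.mpr ⟨j, hx⟩)

theorem link_ver (p : ℕ) [ExpChar R p] (e : ℕ) {M : DGA k} (π : DGA.Hom M (ofRing 𝒜))
    (G : Twist M)
    (hℳ : ∀ (i : ℕ) (j : ℤ) (a : R) (x : verSub 𝒜 p e), a ∈ 𝒜 i → x ∈ verSubGr 𝒜 p e j →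
      a • x ∈ verSubGr 𝒜 p e (j + i)) (n m : ℤ) :
    (G.tens (DGMod.res π (DGMod.ofMod (verSub 𝒜 p e) (verSubGr 𝒜 p e) hℳ))).Van n m ↔
      (G.tens (DGMod.ver π p e 0 (DGMod.self (ofRing 𝒜)))).Van n m := by
  rw [LK_van, LK_ver_van]
  have up : ∀ n : ℤ, ∀ x : G.I → FrobR R p e, LK_grM G (verGr 𝒜 p e) n m x →
      ∃ y : G.I → verSub 𝒜 p e, LK_grM G (verSubGr 𝒜 p e) n m y ∧
        (fun α => (verSub 𝒜 p e).subtype (y α)) = x := by
    intro n x hx
    have h1 : ∀ α, x α ∈ verSub 𝒜 p e := by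
      intro α
      by_cases hα : G.n α = n
      · exact LK_ver_sub p e _ _ ((hx α).1 hα)
      · rw [(hx α).2 hα]
        exact Submodule.zero_mem _
    exact ⟨fun α => ⟨x α, h1 α⟩, fun α => ⟨fun hα => (hx α).1 hα, fun hα =>
      Subtype.ext ((hx α).2 hα)⟩, rfl⟩
  have down : ∀ n : ℤ, ∀ y : G.I → verSub 𝒜 p e, LK_grM G (verSubGr 𝒜 p e) n m y →
      LK_grM G (verGr 𝒜 p e) n m (fun α => (verSub 𝒜 p e).subtype (y α)) := by
    intro n y hy α
    exact ⟨fun hα => (hy α).1 hα, fun hα => congrArg Subtype.val ((hy α).2 hα)⟩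
  constructor
  · intro h x hx hD
    obtain ⟨x', hx', rfl⟩ := up n x hx
    rw [LK_DM_map] at hD
    obtain ⟨y, hy, hDy⟩ := h x' hx' (by
      funext β
      exact Subtype.ext (congrFun hD β))
    refine ⟨_, down _ y hy, ?_⟩
    rw [LK_DM_map, hDy]
  · intro h x hx hD
    obtain ⟨y, hy, hDy⟩ := h _ (down n x hx) (by
      rw [LK_DM_map, hD]
      funext β
      exact map_zero _)
    obtain ⟨y', hy', rfl⟩ := up _ y hy
    rw [LK_DM_map] at hDy
    refine ⟨y', hy', ?_⟩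
    funext β
    exact Subtype.ext (congrFun hDy β)

theorem tens_ver_zero (p : ℕ) [ExpChar R p] {M : DGA k} (π : DGA.Hom M (ofRing 𝒜))
    (G : Twist M) (X : DGMod (ofRing 𝒜)) (n m : ℤ) :
    (G.tens (DGMod.ver π p 0 0 X)).Van n m ↔ (G.tens (DGMod.res π X)).Van n m := by
  have hgr : ∀ (n : ℤ) (x : G.I → X.N), x ∈ (G.tens (DGMod.ver π p 0 0 X)).gr n m ↔
      x ∈ (G.tens (DGMod.res π X)).gr n m := by
    intro n x
    show (∀ α, x α ∈ X.gr (n - G.n α) (((p ^ 0 : ℕ) : ℤ) * (m - G.j α) + 0)) ↔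
      (∀ α, x α ∈ X.gr (n - G.n α) (m - G.j α))
    rw [pow_zero, Nat.cast_one]
    simp only [one_mul, add_zero]
  have hD : ∀ x : G.I → X.N, (G.tens (DGMod.ver π p 0 0 X)).D x
      = (show G.I → X.N from (G.tens (DGMod.res π X)).D x) := by
    intro x
    funext β
    show sg (G.n β) • X.d (x β) + ∑ α, (iterateFrobenius R p 0 (π.toR (G.c β α))) • x α
      = sg (G.n β) • X.d (x β) + ∑ α, (π.toR (G.c β α)) • x α
    congr 1
    refine Finset.sum_congr rfl fun α _ => ?_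
    rw [iterateFrobenius_def, pow_zero, pow_one]
  constructor
  · intro h x hx hDx
    obtain ⟨y, hy, hDy⟩ := h x ((hgr n x).mpr hx) ((hD x).trans hDx)
    exact ⟨y, (hgr (n + 1) y).mp hy, (hD y).symm.trans hDy⟩
  · intro h x hx hDx
    obtain ⟨y, hy, hDy⟩ := h x ((hgr n x).mp hx) ((hD x).symm.trans hDx)
    exact ⟨y, (hgr (n + 1) y).mpr hy, (hD y).trans hDy⟩

end Ring

end FV
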